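import Mathlib

set_option linter.dupNamespace false
set_option linter.unusedSectionVars false

/-!
The average size of a dominating set: `3 * ∑ |S| < 2 n * #dominating sets` when the graph
without isolated vertices is not star-like.
-/

open Finset

namespace Pool.Agent.H311.Dom

open scoped Classical


variable {V : Type*} [Fintype V] (G : SimpleGraph V)

/-- dominating sets -/
def Dom (S : Finset V) : Prop := ∀ v, v ∈ S ∨ ∃ u ∈ S, G.Adj v u

/-- leaves -/
def Leaf (v : V) : Prop := ∃ u, ∀ w, G.Adj v w ↔ w = u

noncomputable def N (v : V) : Finset V := univ.filter (fun w => G.Adj v w)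
noncomputable def Lf (u : V) : Finset V := univ.filter (fun w => G.Adj u w ∧ Leaf G w)
noncomputable def nb (w : V) (T : Finset V) : Finset V := univ.filter (fun u => u ∈ T ∧ G.Adj w u)
noncomputable def priv (S : Finset V) (v : V) : Finset V :=
  univ.filter (fun w => w ∉ S ∧ G.Adj w v ∧ ∀ u ∈ S, G.Adj w u → u = v)

variable (f : Finset V → V)

noncomputable def Phi (p : Finset V × V) : Finset V × V :=
  if (priv G p.1 p.2).Nonempty then
    (p.1, if (Lf G p.2 \ p.1).Nonempty then f (Lf G p.2 \ p.1) else f (priv G p.1 p.2))
  else if Leaf G p.2 then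
    if p.2 = f (Lf G (f (N G p.2))) then (p.1, f (N G p.2))
    else ((p.1 \ Lf G (f (N G p.2))) ∪ {f (N G p.2)}, p.2)
  else ((p.1.erase p.2) ∪ N G p.2, p.2)

noncomputable def Psi (p : Finset V × V) : Finset V × V :=
  if (nb G p.2 p.1).card = 1 then
    if Leaf G p.2 ∧ p.2 ≠ f (Lf G (f (nb G p.2 p.1)) \ p.1) then
      ((p.1.erase (f (nb G p.2 p.1))) ∪ Lf G (f (nb G p.2 p.1)), p.2)
    else (p.1, f (nb G p.2 p.1))
  else if (Lf G p.2).Nonempty then (p.1, f (Lf G p.2))
  else ((p.1 \ N G p.2) ∪ {p.2}, p.2)

variable {G f}

theorem leaf_adj {w u v : V} (hw : Leaf G w) (h1 : G.Adj w u) (h2 : G.Adj w v) : u = v := by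
  obtain ⟨x, hx⟩ := hw
  rw [(hx u).mp h1, (hx v).mp h2]

theorem f_single (hf : ∀ A : Finset V, A.Nonempty → f A ∈ A) (v : V) : f {v} = v := by
  have := hf {v} (singleton_nonempty v)
  simpa using this

theorem crit_iso {S : Finset V} {v : V} (hS : Dom G S) (hc : ¬ Dom G (S.erase v))
    (hP : ¬ (priv G S v).Nonempty) : ∀ u ∈ S, ¬ G.Adj v u := by
  unfold Dom at hc
  push Not at hc
  obtain ⟨x, hx, hx2⟩ := hc
  by_cases hxS : x ∈ S
  · have hxv : x = v := by
      by_contra hne
      exact hx (mem_erase.mpr ⟨hne, hxS⟩)
    subst hxv
    intro u hu hadj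
    exact hx2 u (mem_erase.mpr ⟨hadj.ne', hu⟩) hadj
  · exfalso
    rcases hS x with h | ⟨u, hu, hadj⟩
    · exact hxS h
    · apply hP
      have key : ∀ u ∈ S, G.Adj x u → u = v := by
        intro u hu hadj
        by_contra hne
        exact hx2 u (mem_erase.mpr ⟨hne, hu⟩) hadj
      have huv := key u hu hadj
      subst huv
      exact ⟨x, by simp only [priv, mem_filter, mem_univ, true_and]; exact ⟨hxS, hadj, key⟩⟩

theorem N_leaf {v u : V} (hu : ∀ w, G.Adj v w ↔ w = u) : N G v = {u} := by
  ext w; simp [N, hu]

theorem card_N {v : V} (h : (N G v).card = 1) : Leaf G v := by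
  obtain ⟨u, hu⟩ := card_eq_one.mp h
  refine ⟨u, fun w => ?_⟩
  have : w ∈ N G v ↔ w ∈ ({u} : Finset V) := by rw [hu]
  simpa [N] using this

theorem phi_spec (hf : ∀ A : Finset V, A.Nonempty → f A ∈ A) (hiso : ∀ v, ∃ u, G.Adj v u)
    {S : Finset V} {v : V} (hS : Dom G S) (hv : v ∈ S) (hc : ¬ Dom G (S.erase v)) :
    Dom G (Phi G f (S, v)).1 ∧ (Phi G f (S, v)).2 ∉ (Phi G f (S, v)).1 ∧
      Psi G f (Phi G f (S, v)) = (S, v) := by
  by_cases hP : (priv G S v).Nonempty
  · -- case 1
    have hPhi : Phi G f (S, v) =
        (S, if (Lf G v \ S).Nonempty then f (Lf G v \ S) else f (priv G S v)) := by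
      simp only [Phi, hP, if_true]
    rw [hPhi]
    set w := (if (Lf G v \ S).Nonempty then f (Lf G v \ S) else f (priv G S v)) with hw
    have hwp : w ∈ priv G S v := by
      rw [hw]
      split_ifs with h
      · have h1 := hf _ h
        simp only [Lf, mem_sdiff, mem_filter, mem_univ, true_and] at h1
        simp only [priv, mem_filter, mem_univ, true_and]
        obtain ⟨⟨h2, h3⟩, h4⟩ := h1
        exact ⟨h4, h2.symm, fun u _ hu => leaf_adj h3 hu h2.symm⟩
      · exact hf _ hP
    simp only [priv, mem_filter, mem_univ, true_and] at hwp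
    obtain ⟨hwS, hwv, hwu⟩ := hwp
    have hnb : nb G w S = {v} := by
      ext u
      simp only [nb, mem_filter, mem_univ, true_and, mem_singleton]
      exact ⟨fun h => hwu u h.1 h.2, fun h => by subst h; exact ⟨hv, hwv⟩⟩
    refine ⟨hS, hwS, ?_⟩
    have hcond : ¬ (Leaf G w ∧ w ≠ f (Lf G v \ S)) := by
      rintro ⟨h1, h2⟩
      have h3 : (Lf G v \ S).Nonempty := ⟨w, by
        simp only [Lf, mem_sdiff, mem_filter, mem_univ, true_and]
        exact ⟨⟨hwv.symm, h1⟩, hwS⟩⟩
      apply h2
      rw [hw, if_pos h3]
    simp only [Psi, hnb, card_singleton, if_true, f_single hf, hcond, if_false]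
  · have hI := crit_iso hS hc hP
    by_cases hl : Leaf G v
    · obtain ⟨u, hu⟩ := hl
      have hl : Leaf G v := ⟨u, hu⟩
      have hvu : G.Adj v u := (hu u).mpr rfl
      have hfN : f (N G v) = u := by rw [N_leaf hu, f_single hf]
      have huS : u ∉ S := fun h => hI u h hvu
      have hLS : Lf G u ⊆ S := by
        intro y hy
        simp only [Lf, mem_filter, mem_univ, true_and] at hy
        rcases hS y with h | ⟨z, hz, hyz⟩
        · exact h
        · exact absurd (leaf_adj hy.2 hyz hy.1.symm ▸ hz) huS
      have hvL : v ∈ Lf G u := by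
        simp only [Lf, mem_filter, mem_univ, true_and]
        exact ⟨hvu.symm, hl⟩
      have huL : u ∉ Lf G u := by
        simp [Lf]
      obtain ⟨u', hu'S, hu'u, hu'v⟩ : ∃ u' ∈ S, G.Adj u u' ∧ u' ≠ v := by
        by_contra hno
        push Not at hno
        apply hP
        refine ⟨u, ?_⟩
        simp only [priv, mem_filter, mem_univ, true_and]
        exact ⟨huS, hvu.symm, hno⟩
      by_cases hvf : v = f (Lf G u)
      · have hPhi : Phi G f (S, v) = (S, u) := by
          simp only [Phi, hP, if_false, hl, if_true, hfN]
          rw [if_pos hvf]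
        rw [hPhi]
        refine ⟨hS, huS, ?_⟩
        have hcard : (nb G u S).card ≠ 1 := by
          intro h
          obtain ⟨x, hx⟩ := card_eq_one.mp h
          have h1 : v ∈ nb G u S := by
            simp only [nb, mem_filter, mem_univ, true_and]; exact ⟨hv, hvu.symm⟩
          have h2 : u' ∈ nb G u S := by
            simp only [nb, mem_filter, mem_univ, true_and]; exact ⟨hu'S, hu'u⟩
          rw [hx, mem_singleton] at h1 h2
          exact hu'v (h2.trans h1.symm)
        have hne : (Lf G u).Nonempty := ⟨v, hvL⟩
        simp only [Psi, hcard, if_false, hne, if_true]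
        rw [← hvf]
      · have hPhi : Phi G f (S, v) = ((S \ Lf G u) ∪ {u}, v) := by
          simp only [Phi, hP, if_false, hl, if_true, hfN]
          rw [if_neg hvf]
        rw [hPhi]
        have hnotin : v ∉ (S \ Lf G u) ∪ {u} := by
          simp only [mem_union, mem_sdiff, mem_singleton, not_or, not_and, not_not]
          exact ⟨fun _ => hvL, hvu.ne⟩
        refine ⟨?_, hnotin, ?_⟩
        · intro x
          rcases hS x with h | ⟨y, hy, hxy⟩
          · by_cases hxL : x ∈ Lf G u
            · right
              refine ⟨u, by simp, ?_⟩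
              simp only [Lf, mem_filter, mem_univ, true_and] at hxL
              exact hxL.1.symm
            · left
              simp [h, hxL]
          · by_cases hyL : y ∈ Lf G u
            · simp only [Lf, mem_filter, mem_univ, true_and] at hyL
              left
              have := leaf_adj hyL.2 hxy.symm hyL.1.symm
              simp [this]
            · right
              exact ⟨y, by simp [hy, hyL], hxy⟩
        · have hnb : nb G v ((S \ Lf G u) ∪ {u}) = {u} := by
            ext x
            simp only [nb, mem_filter, mem_univ, true_and, mem_singleton, mem_union, hu]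
            constructor
            · exact fun h => h.2
            · exact fun h => ⟨Or.inr h, h⟩
          have hLT : Lf G u \ ((S \ Lf G u) ∪ {u}) = Lf G u := by
            ext x
            simp only [mem_sdiff, mem_union, mem_singleton]
            constructor
            · exact fun h => h.1
            · intro h
              refine ⟨h, ?_⟩
              rintro (⟨_, h2⟩ | h2)
              · exact h2 h
              · exact huL (h2 ▸ h)
          have hcond : Leaf G v ∧ v ≠ f (Lf G u \ ((S \ Lf G u) ∪ {u})) := ⟨hl, by rw [hLT]; exact hvf⟩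
          have hres : (((S \ Lf G u) ∪ {u}).erase u) ∪ Lf G u = S := by
            ext x
            simp only [mem_union, mem_erase, mem_sdiff, mem_singleton]
            constructor
            · rintro (⟨h1, h2 | h2⟩ | h2)
              · exact h2.1
              · exact absurd h2 h1
              · exact hLS h2
            · intro hx
              by_cases hxL : x ∈ Lf G u
              · exact Or.inr hxL
              · left
                exact ⟨fun h => huS (h ▸ hx), Or.inl ⟨hx, hxL⟩⟩
          simp only [Psi, hnb, card_singleton, if_true, f_single hf]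
          rw [if_pos hcond, hres]
    · have hPhi : Phi G f (S, v) = ((S.erase v) ∪ N G v, v) := by
        simp only [Phi, hP, if_false, hl]
      rw [hPhi]
      refine ⟨?_, ?_, ?_⟩
      · intro x
        rcases hS x with h | ⟨y, hy, hxy⟩
        · by_cases hxv : x = v
          · subst hxv
            obtain ⟨u, hu⟩ := hiso x
            exact Or.inr ⟨u, by simp [N, hu], hu⟩
          · left; simp [h, hxv]
        · by_cases hyv : y = v
          · subst hyv
            left; simp [N, hxy.symm]
          · right
            exact ⟨y, by simp [hy, hyv], hxy⟩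
      · simp [N]
      · have hnb : nb G v ((S.erase v) ∪ N G v) = N G v := by
          ext x
          simp only [nb, N, mem_filter, mem_univ, true_and, mem_union]
          exact ⟨fun h => h.2, fun h => ⟨Or.inr h, h⟩⟩
        have hcard : (N G v).card ≠ 1 := fun h => hl (card_N h)
        have hLe : ¬ (Lf G v).Nonempty := by
          rintro ⟨y, hy⟩
          simp only [Lf, mem_filter, mem_univ, true_and] at hy
          apply hP
          refine ⟨y, ?_⟩
          simp only [priv, mem_filter, mem_univ, true_and]
          exact ⟨fun h => hI y h hy.1, hy.1.symm, fun u _ h => leaf_adj hy.2 h hy.1.symm⟩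
        have hres : (((S.erase v) ∪ N G v) \ N G v) ∪ {v} = S := by
          ext x
          simp only [mem_union, mem_erase, mem_sdiff, mem_singleton, N, mem_filter, mem_univ,
            true_and]
          constructor
          · rintro (⟨h1 | h1, h2⟩ | h2)
            · exact h1.2
            · exact absurd h1 h2
            · exact h2 ▸ hv
          · intro hx
            by_cases hxv : x = v
            · exact Or.inr hxv
            · left
              exact ⟨Or.inl ⟨hxv, hx⟩, fun h => hI x hx h⟩
        simp only [Psi, hnb, hcard, if_false, hLe]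
        rw [hres]



end Pool.Agent.H311.Dom
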