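import Pool.Agent.H311.Dom.Count

set_option linter.dupNamespace false
set_option linter.unusedSectionVars false

open Finset
open scoped Classical

namespace Pool.Agent.H311.Dom

variable {V : Type*} [Fintype V] (G : SimpleGraph V)

noncomputable def Crit : Finset (Finset V × V) :=
  univ.filter (fun p => Dom G p.1 ∧ p.2 ∈ p.1 ∧ ¬ Dom G (p.1.erase p.2))
noncomputable def Out : Finset (Finset V × V) :=
  univ.filter (fun p => Dom G p.1 ∧ p.2 ∉ p.1)
noncomputable def In : Finset (Finset V × V) :=
  univ.filter (fun p => Dom G p.1 ∧ p.2 ∈ p.1)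
noncomputable def DS : Finset (Finset V) := univ.filter (fun S => Dom G S)

variable {G}

theorem crit_lt {f : Finset V → V} (hf : ∀ A : Finset V, A.Nonempty → f A ∈ A)
    (hiso : ∀ v, ∃ u, G.Adj v u) {q : Finset V × V} (hq : q ∈ Out G)
    (hq2 : Phi G f (Psi G f q) ≠ q) : (Crit G).card < (Out G).card := by
  have hinj : Set.InjOn (Phi G f) (Crit G : Set (Finset V × V)) := by
    intro p hp p' hp' h
    simp only [Crit, coe_filter, mem_univ, true_and, Set.mem_ofPred_eq] at hp hp'
    have e1 := (phi_spec hf hiso hp.1 hp.2.1 hp.2.2).2.2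
    have e2 := (phi_spec hf hiso hp'.1 hp'.2.1 hp'.2.2).2.2
    rw [Prod.mk.eta] at e1 e2
    rw [← e1, ← e2, h]
  rw [← card_image_of_injOn hinj]
  apply card_lt_card
  rw [ssubset_iff_of_subset]
  · refine ⟨q, hq, ?_⟩
    intro h
    rw [mem_image] at h
    obtain ⟨p, hp, hpq⟩ := h
    simp only [Crit, mem_filter, mem_univ, true_and] at hp
    have e1 := (phi_spec hf hiso hp.1 hp.2.1 hp.2.2).2.2
    rw [Prod.mk.eta] at e1
    apply hq2
    rw [← hpq, e1]
  · intro r hr
    rw [mem_image] at hr
    obtain ⟨p, hp, hpr⟩ := hr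
    simp only [Crit, mem_filter, mem_univ, true_and] at hp
    have e1 := phi_spec hf hiso hp.1 hp.2.1 hp.2.2
    rw [Prod.mk.eta, hpr] at e1
    simp only [Out, mem_filter, mem_univ, true_and]
    exact ⟨e1.1, e1.2.1⟩

/-- strictness from a vertex adjacent to at least three leaves -/
theorem strict_three {f : Finset V → V} (hf : ∀ A : Finset V, A.Nonempty → f A ∈ A)
    (hiso : ∀ v, ∃ u, G.Adj v u) {x : V} (hx : 3 ≤ (Lf G x).card) :
    (Crit G).card < (Out G).card := by
  obtain ⟨A, hAL, hA⟩ := exists_subset_card_eq (s := Lf G x) (n := 2) (by omega)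
  obtain ⟨y3, hy3L, hy3A⟩ : ∃ y ∈ Lf G x, y ∉ A := by
    by_contra h
    push Not at h
    have := card_le_card (s := Lf G x) (t := A) h
    omega
  obtain ⟨w, hwA, hwf⟩ : ∃ w ∈ A, w ≠ f A := by
    by_contra h
    push Not at h
    have : A ⊆ {f A} := fun w hw => by simp [h w hw]
    have := card_le_card this
    simp at this
    omega
  have memL : ∀ y, y ∈ Lf G x ↔ G.Adj x y ∧ Leaf G y := fun y => by
    simp only [Lf, mem_filter, mem_univ, true_and]
  have hxL : x ∉ Lf G x := by simp [Lf]
  have hxA : x ∉ A := fun h => hxL (hAL h)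
  have hwl := (memL w).mp (hAL hwA)
  have hxw : x ≠ w := hwl.1.ne
  apply crit_lt hf hiso (q := (univ \ A, w))
  · simp only [Out, mem_filter, mem_univ, true_and, mem_sdiff, not_not]
    refine ⟨?_, hwA⟩
    intro z
    by_cases hz : z ∈ A
    · right
      exact ⟨x, by simp [hxA], ((memL z).mp (hAL hz)).1.symm⟩
    · left; simp [hz]
  · have hnb : nb G w (univ \ A) = {x} := by
      ext u
      simp only [nb, mem_filter, mem_univ, true_and, mem_singleton, mem_sdiff]
      constructor
      · rintro ⟨_, h⟩
        exact leaf_adj hwl.2 h hwl.1.symm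
      · intro h
        subst h
        exact ⟨hxA, hwl.1.symm⟩
    have hLA : Lf G x \ (univ \ A) = A := by
      ext y
      simp only [mem_sdiff, mem_univ, true_and, not_not]
      exact ⟨fun h => h.2, fun h => ⟨hAL h, h⟩⟩
    have hPsi : Psi G f (univ \ A, w) = (((univ \ A).erase x) ∪ Lf G x, w) := by
      simp only [Psi, hnb, card_singleton, if_true, f_single hf, hLA]
      rw [if_pos ⟨hwl.2, hwf⟩]
    rw [hPsi]
    intro h
    have hwS : w ∈ ((univ \ A).erase x) ∪ Lf G x := by
      rw [mem_union]; exact Or.inr (hAL hwA)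
    have hN : f (N G w) = x := by
      obtain ⟨u, hu⟩ := hwl.2
      have : x = u := (hu x).mp hwl.1.symm
      rw [N_leaf hu, f_single hf, this]
    have hfst : (Phi G f (((univ \ A).erase x) ∪ Lf G x, w)).1 = ((univ \ A).erase x) ∪ Lf G x ∨
        (Phi G f (((univ \ A).erase x) ∪ Lf G x, w)).1
          = ((((univ \ A).erase x) ∪ Lf G x) \ Lf G x) ∪ {x} := by
      simp only [Phi, hwl.2, if_true, hN]
      split_ifs <;> simp
    rw [h] at hfst
    simp only at hfst
    rcases hfst with h1 | h1
    · rw [← h1] at hwS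
      simp [hwA] at hwS
    · have hy : y3 ∈ univ \ A := by simp [hy3A]
      rw [h1, mem_union, mem_sdiff, mem_singleton] at hy
      rcases hy with ⟨_, hy⟩ | hy
      · exact hy hy3L
      · exact hxL (hy ▸ hy3L)

/-- strictness from a non-leaf vertex adjacent to no leaf -/
theorem strict_zero {f : Finset V → V} (hf : ∀ A : Finset V, A.Nonempty → f A ∈ A)
    (hiso : ∀ v, ∃ u, G.Adj v u) {x : V} (hxl : ¬ Leaf G x) (hx : Lf G x = ∅) :
    (Crit G).card < (Out G).card := by
  obtain ⟨y, hy⟩ := hiso x
  set S' : Finset V := univ.filter (fun z => G.Adj x z ∨ (z ≠ x ∧ z ≠ y ∧ ¬ G.Adj z y)) with hS'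
  have memS' : ∀ z, z ∈ S' ↔ G.Adj x z ∨ (z ≠ x ∧ z ≠ y ∧ ¬ G.Adj z y) := fun z => by
    simp only [hS', mem_filter, mem_univ, true_and]
  have hyS' : y ∈ S' := by rw [memS']; exact Or.inl hy
  have hxS' : x ∉ S' := by rw [memS']; simp
  apply crit_lt hf hiso (q := (S', x))
  · simp only [Out, mem_filter, mem_univ, true_and]
    refine ⟨?_, hxS'⟩
    intro z
    by_cases hz : z ∈ S'
    · exact Or.inl hz
    · right
      by_cases hzx : z = x
      · subst hzx
        exact ⟨y, hyS', hy⟩
      · rw [memS'] at hz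
        push Not at hz
        have hzy : z ≠ y := fun h => hz.1 (h ▸ hy)
        exact ⟨y, hyS', hz.2 hzx hzy⟩
  · have hnb : nb G x S' = N G x := by
      ext u
      simp only [nb, N, mem_filter, mem_univ, true_and, memS']
      exact ⟨fun h => h.2, fun h => ⟨Or.inl h, h⟩⟩
    have hcard : (N G x).card ≠ 1 := fun h => hxl (card_N h)
    have hPsi : Psi G f (S', x) = ((S' \ N G x) ∪ {x}, x) := by
      simp only [Psi, hnb, hcard, if_false, hx]
      simp
    rw [hPsi]
    intro h
    have hxS : x ∈ (S' \ N G x) ∪ {x} := by simp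
    have hpriv : (priv G ((S' \ N G x) ∪ {x}) x).Nonempty := by
      refine ⟨y, ?_⟩
      simp only [priv, mem_filter, mem_univ, true_and, mem_union, mem_sdiff, mem_singleton, memS', N]
      refine ⟨?_, hy.symm, ?_⟩
      · rintro (⟨_, h2⟩ | h2)
        · exact h2 hy
        · exact hy.ne h2.symm
      · rintro u (⟨h1 | h1, h2⟩ | h2) h3
        · exact absurd h1 h2
        · exact absurd h3.symm h1.2.2
        · exact h2
    simp only [Phi, hpriv, if_true] at h
    have := congrArg Prod.fst h
    simp only at this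
    rw [this] at hxS
    exact hxS' hxS

theorem card_In_eq : (In G).card = (Crit G).card + (Out G).card := by
  have h1 : In G = Crit G ∪ (In G).filter (fun p => Dom G (p.1.erase p.2)) := by
    ext p
    simp only [In, Crit, mem_union, mem_filter, mem_univ, true_and]
    by_cases h : Dom G (p.1.erase p.2) <;> simp [h]
  have h2 : Disjoint (Crit G) ((In G).filter (fun p => Dom G (p.1.erase p.2))) := by
    rw [disjoint_left]
    intro p hp hp'
    simp only [Crit, In, mem_filter, mem_univ, true_and] at hp hp'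
    exact hp.2.2 hp'.2
  rw [h1, card_union_of_disjoint h2]
  congr 1
  symm
  apply card_bij (fun p _ => (insert p.2 p.1, p.2))
  · intro p hp
    simp only [Out, mem_filter, mem_univ, true_and] at hp
    simp only [In, mem_filter, mem_univ, true_and]
    refine ⟨⟨?_, mem_insert_self _ _⟩, ?_⟩
    · intro v
      rcases hp.1 v with h | ⟨u, hu, hadj⟩
      · exact Or.inl (mem_insert_of_mem h)
      · exact Or.inr ⟨u, mem_insert_of_mem hu, hadj⟩
    · rw [erase_insert hp.2]
      exact hp.1
  · intro p hp p' hp' h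
    simp only [Out, mem_filter, mem_univ, true_and] at hp hp'
    have h1 := congrArg Prod.snd h
    have h2 := congrArg Prod.fst h
    simp only at h1 h2
    ext1
    · rw [← erase_insert hp.2, h2, h1, erase_insert hp'.2]
    · exact h1
  · intro p hp
    simp only [In, mem_filter, mem_univ, true_and] at hp
    refine ⟨(p.1.erase p.2, p.2), ?_, ?_⟩
    · simp only [Out, mem_filter, mem_univ, true_and]
      exact ⟨hp.2, by simp⟩
    · simp [insert_erase hp.1.2]

theorem card_In_sum : (In G).card = ∑ S ∈ DS G, S.card := by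
  have : In G = ((DS G).sigma (fun S => S)).map
      ⟨fun p : (Σ _ : Finset V, V) => (p.1, p.2), fun a b h => by
        cases a; cases b; simp at h; simp [h]⟩ := by
    ext p
    simp only [In, DS, mem_filter, mem_univ, true_and, mem_map, mem_sigma,
      Function.Embedding.coeFn_mk, Sigma.exists]
    constructor
    · rintro ⟨h1, h2⟩
      exact ⟨p.1, p.2, ⟨h1, h2⟩, rfl⟩
    · rintro ⟨a, b, ⟨h1, h2⟩, h3⟩
      subst h3
      exact ⟨h1, h2⟩
  rw [this, card_map, card_sigma]

theorem card_Out_sum : (Out G).card = ∑ S ∈ DS G, (Fintype.card V - S.card) := by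
  have : Out G = ((DS G).sigma (fun S => Sᶜ)).map
      ⟨fun p : (Σ _ : Finset V, V) => (p.1, p.2), fun a b h => by
        cases a; cases b; simp at h; simp [h]⟩ := by
    ext p
    simp only [Out, DS, mem_filter, mem_univ, true_and, mem_map, mem_sigma,
      Function.Embedding.coeFn_mk, Sigma.exists, mem_compl]
    constructor
    · rintro ⟨h1, h2⟩
      exact ⟨p.1, p.2, ⟨h1, h2⟩, rfl⟩
    · rintro ⟨a, b, ⟨h1, h2⟩, h3⟩
      subst h3
      exact ⟨h1, h2⟩
  rw [this, card_map, card_sigma]
  simp [card_compl]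

/-- If `G` (without isolated vertices) has a vertex that is neither a leaf nor adjacent to exactly
one or two leaves, then the average size of a dominating set is less than `2n/3`. -/
theorem average_lt (hiso : ∀ v, ∃ u, G.Adj v u) {x : V} (hx : ¬ Leaf G x)
    (h1 : (Lf G x).card ≠ 1) (h2 : (Lf G x).card ≠ 2) :
    3 * ∑ S ∈ DS G, S.card < 2 * Fintype.card V * (DS G).card := by
  obtain ⟨f, hf⟩ : ∃ f : Finset V → V, ∀ A : Finset V, A.Nonempty → f A ∈ A := by
    refine ⟨fun A => if h : A.Nonempty then h.choose else x, fun A hA => ?_⟩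
    simp only [hA, dif_pos]
    exact hA.choose_spec
  have key : (Crit G).card < (Out G).card := by
    rcases Nat.lt_or_ge (Lf G x).card 3 with h | h
    · have h0 : (Lf G x).card = 0 := by omega
      exact strict_zero hf hiso hx (card_eq_zero.mp h0)
    · exact strict_three hf hiso h
  have e1 := card_In_eq (G := G)
  have e2 : (In G).card + (Out G).card = Fintype.card V * (DS G).card := by
    rw [card_In_sum, card_Out_sum, ← sum_add_distrib]
    rw [sum_congr rfl (fun S _ => Nat.add_sub_cancel' (card_le_univ S))]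
    simp [mul_comm]
  rw [← card_In_sum]
  have e3 : 2 * Fintype.card V * (DS G).card = 2 * ((In G).card + (Out G).card) := by
    rw [e2]; ring
  rw [e3]
  omega

/-- the number of dominating sets is odd -/
theorem odd_DS : Odd (DS G).card := by
  set P : Finset (Finset V × Finset V) :=
    univ.filter (fun p => Disjoint p.1 p.2 ∧ ∀ a ∈ p.1, ∀ b ∈ p.2, ¬ G.Adj a b) with hP
  have memP : ∀ p, p ∈ P ↔ Disjoint p.1 p.2 ∧ ∀ a ∈ p.1, ∀ b ∈ p.2, ¬ G.Adj a b := fun p => by
    simp only [hP, mem_filter, mem_univ, true_and]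
  have h0 : ((∅, ∅) : Finset V × Finset V) ∈ P := by rw [memP]; simp
  have e1 : ∑ p ∈ P.erase (∅, ∅), (1 : ZMod 2) = 0 := by
    apply Finset.sum_involution (fun p _ => (p.2, p.1))
    · intro p _; decide
    · intro p hp _ h
      rw [mem_erase, memP] at hp
      have h1 : p.1 = p.2 := (congrArg Prod.snd h)
      apply hp.1
      have h3 : p.1 = ∅ := by
        have := hp.2.1
        rw [← h1] at this
        exact disjoint_self.mp this
      ext1
      · exact h3
      · rw [← h1]; exact h3
    · intro p hp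
      rw [mem_erase, memP] at hp ⊢
      refine ⟨fun h => hp.1 ?_, hp.2.1.symm, fun a ha b hb h => hp.2.2 b hb a ha h.symm⟩
      ext1
      · exact congrArg Prod.snd h
      · exact congrArg Prod.fst h
    · intro p _; rfl
  have e2 : ∑ p ∈ P, (1 : ZMod 2) = 1 := by
    rw [← add_sum_erase P _ h0, e1, add_zero]
  have e3 : ∑ p ∈ P, (1 : ZMod 2) = ∑ A : Finset V, ∑ B ∈ (univ.filter (fun v => v ∉ A ∧ ∀ a ∈ A, ¬ G.Adj a v)).powerset, (1 : ZMod 2) := by
    rw [Finset.sum_sigma']
    apply Finset.sum_bij' (fun p _ => (⟨p.1, p.2⟩ : Σ _ : Finset V, Finset V)) (fun s _ => (s.1, s.2))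
    · intro p hp
      rw [memP] at hp
      simp only [mem_sigma, mem_univ, true_and, mem_powerset]
      intro b hb
      simp only [mem_filter, mem_univ, true_and]
      exact ⟨fun h => disjoint_left.mp hp.1 h hb, fun a ha => hp.2 a ha b hb⟩
    · intro s hs
      simp only [mem_sigma, mem_univ, true_and, mem_powerset] at hs
      rw [memP]
      constructor
      · rw [disjoint_left]
        intro a ha hb
        have := hs hb
        simp only [mem_filter, mem_univ, true_and] at this
        exact this.1 ha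
      · intro a ha b hb
        have := hs hb
        simp only [mem_filter, mem_univ, true_and] at this
        exact this.2 a ha
    · intro p _; rfl
    · intro s _; rfl
    · intro p _; rfl
  have e4 : ∀ A : Finset V, (∑ B ∈ (univ.filter (fun v => v ∉ A ∧ ∀ a ∈ A, ¬ G.Adj a v)).powerset, (1 : ZMod 2)) = if Dom G A then 1 else 0 := by
    intro A
    rw [sum_const, card_powerset, nsmul_eq_mul, mul_one]
    split_ifs with h
    · have : univ.filter (fun v => v ∉ A ∧ ∀ a ∈ A, ¬ G.Adj a v) = (∅ : Finset V) := by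
        rw [filter_eq_empty_iff]
        rintro v _ ⟨h1, h2⟩
        rcases h v with h3 | ⟨u, hu, hadj⟩
        · exact h1 h3
        · exact h2 u hu hadj.symm
      rw [this]; simp
    · have : (univ.filter (fun v => v ∉ A ∧ ∀ a ∈ A, ¬ G.Adj a v)).card ≠ 0 := by
        intro h0
        rw [card_eq_zero, filter_eq_empty_iff] at h0
        apply h
        intro v
        by_contra hno
        push Not at hno
        exact h0 (mem_univ v) ⟨hno.1, fun a ha h => hno.2 a ha h.symm⟩
      obtain ⟨k, hk⟩ := Nat.exists_eq_succ_of_ne_zero this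
      rw [hk, pow_succ]
      push_cast
      have : (2 : ZMod 2) = 0 := by decide
      rw [this, mul_zero]
  rw [e3, sum_congr rfl (fun A _ => e4 A), ← sum_filter, sum_const, nsmul_eq_mul, mul_one] at e2
  have e5 : (((DS G).card : ℕ) : ZMod 2) = 1 := e2
  rw [← Nat.cast_one, ZMod.natCast_eq_natCast_iff] at e5
  rw [Nat.odd_iff]
  exact e5

end Pool.Agent.H311.Dom
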