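import Mathlib

/-!
Auxiliary-function inequality: for `r > 0`, `r ≠ 1`, `r ≠ 2`, `r^2-3r+1 ≠ 0`,
`(3/50) log r + (37/200) log |r-1| + (2/25) log |r-2| + (1/16) log |r^2-3r+1| ≤ r(r-2)/(3(1+r))`.
-/

namespace Pool.Agent.H311.Dom

theorem log_sq_le {x X q : ℝ} (hx : x ≠ 0) (hX : 0 < X) (hq : Real.log X ≤ q) :
    Real.log x ≤ (x ^ 2 / X - 1 + q) / 2 := by
  have h1 : 0 < x ^ 2 := by positivity
  have h2 : Real.log (x ^ 2 / X) ≤ x ^ 2 / X - 1 := Real.log_le_sub_one_of_pos (by positivity)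
  rw [Real.log_div h1.ne' hX.ne', Real.log_pow] at h2
  push_cast at h2
  linarith

theorem log_ub_nonneg {X : ℝ} (hX : 0 < X) (m k : ℕ) (hm : 0 < m) (h : X ^ m ≤ 2 ^ k) :
    Real.log X ≤ (k / m : ℝ) * 0.6932 := by
  have h1 := Real.log_le_log (by positivity) h
  rw [Real.log_pow, Real.log_pow] at h1
  have h2 := Real.log_two_lt_d9
  have hm' : (0 : ℝ) < m := by exact_mod_cast hm
  have hk : (0 : ℝ) ≤ k := by positivity
  have h3 : (m : ℝ) * Real.log X ≤ k * 0.6932 := by nlinarith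
  rw [div_mul_eq_mul_div, le_div_iff₀ hm']
  linarith

theorem log_ub_neg {X : ℝ} (hX : 0 < X) (m k : ℕ) (hm : 0 < m) (h : X ^ m * 2 ^ k ≤ 1) :
    Real.log X ≤ -(k / m : ℝ) * 0.6931 := by
  have h1 := Real.log_le_log (by positivity) h
  rw [Real.log_mul (by positivity) (by positivity), Real.log_pow, Real.log_pow, Real.log_one] at h1
  have h2 := Real.log_two_gt_d9
  have hm' : (0 : ℝ) < m := by exact_mod_cast hm
  have hk : (0 : ℝ) ≤ k := by positivity
  have h3 : (m : ℝ) * Real.log X ≤ -(k * 0.6931) := by nlinarith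
  have h4 : -(k / m : ℝ) * 0.6931 = (-(k * 0.6931)) / m := by ring
  rw [h4, le_div_iff₀ hm']
  linarith

theorem bern5 {u w : ℝ} (hu : 0 ≤ u) (hw : 0 ≤ w) (b0 b1 b2 b3 b4 b5 : ℝ)
    (h0 : 0 ≤ b0) (h1 : 0 ≤ b1) (h2 : 0 ≤ b2) (h3 : 0 ≤ b3) (h4 : 0 ≤ b4) (h5 : 0 ≤ b5) :
    0 ≤ b0 * w ^ 5 + b1 * u * w ^ 4 + b2 * u ^ 2 * w ^ 3 + b3 * u ^ 3 * w ^ 2
      + b4 * u ^ 4 * w + b5 * u ^ 5 := by positivity

theorem lg_3_50 : Real.log ((3/50)) ≤ (-6931/2500) := by
  have h := log_ub_neg (X := (3/50)) (by norm_num) 8 32 (by norm_num) (by norm_num)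
  norm_num at h ⊢
  try linarith

theorem lg_4_25 : Real.log ((4/25)) ≤ (-145551/80000) := by
  have h := log_ub_neg (X := (4/25)) (by norm_num) 8 21 (by norm_num) (by norm_num)
  norm_num at h ⊢
  try linarith

theorem lg_6_25 : Real.log ((6/25)) ≤ (-6931/5000) := by
  have h := log_ub_neg (X := (6/25)) (by norm_num) 8 16 (by norm_num) (by norm_num)
  norm_num at h ⊢
  try linarith

theorem lg_13_50 : Real.log ((13/50)) ≤ (-20793/16000) := by
  have h := log_ub_neg (X := (13/50)) (by norm_num) 8 15 (by norm_num) (by norm_num)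
  norm_num at h ⊢
  try linarith

theorem lg_3_10 : Real.log ((3/10)) ≤ (-90103/80000) := by
  have h := log_ub_neg (X := (3/10)) (by norm_num) 8 13 (by norm_num) (by norm_num)
  norm_num at h ⊢
  try linarith

theorem lg_7_10 : Real.log ((7/10)) ≤ (-6931/20000) := by
  have h := log_ub_neg (X := (7/10)) (by norm_num) 8 4 (by norm_num) (by norm_num)
  norm_num at h ⊢
  try linarith

theorem lg_9_10 : Real.log ((9/10)) ≤ (-6931/80000) := by
  have h := log_ub_neg (X := (9/10)) (by norm_num) 8 1 (by norm_num) (by norm_num)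
  norm_num at h ⊢
  try linarith

theorem lg_1_1 : Real.log (1) ≤ 0 := by
  have h := log_ub_nonneg (X := 1) (by norm_num) 8 0 (by norm_num) (by norm_num)
  norm_num at h ⊢
  try linarith

theorem lg_11_10 : Real.log ((11/10)) ≤ (1733/10000) := by
  have h := log_ub_nonneg (X := (11/10)) (by norm_num) 8 2 (by norm_num) (by norm_num)
  norm_num at h ⊢
  try linarith

theorem lg_2_1 : Real.log (2) ≤ (1733/2500) := by
  have h := log_ub_nonneg (X := 2) (by norm_num) 8 8 (by norm_num) (by norm_num)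
  norm_num at h ⊢
  try linarith

theorem lg_3_1 : Real.log (3) ≤ (22529/20000) := by
  have h := log_ub_nonneg (X := 3) (by norm_num) 8 13 (by norm_num) (by norm_num)
  norm_num at h ⊢
  try linarith

theorem lg_4_1 : Real.log (4) ≤ (1733/1250) := by
  have h := log_ub_nonneg (X := 4) (by norm_num) 8 16 (by norm_num) (by norm_num)
  norm_num at h ⊢
  try linarith

theorem lg_9_2 : Real.log ((9/2)) ≤ (15597/10000) := by
  have h := log_ub_nonneg (X := (9/2)) (by norm_num) 8 18 (by norm_num) (by norm_num)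
  norm_num at h ⊢
  try linarith

theorem lg_8_1 : Real.log (8) ≤ (5199/2500) := by
  have h := log_ub_nonneg (X := 8) (by norm_num) 8 24 (by norm_num) (by norm_num)
  norm_num at h ⊢
  try linarith

theorem lg_19_2 : Real.log ((19/2)) ≤ (22529/10000) := by
  have h := log_ub_nonneg (X := (19/2)) (by norm_num) 8 26 (by norm_num) (by norm_num)
  norm_num at h ⊢
  try linarith

theorem lg_16_1 : Real.log (16) ≤ (1733/625) := by
  have h := log_ub_nonneg (X := 16) (by norm_num) 8 32 (by norm_num) (by norm_num)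
  norm_num at h ⊢
  try linarith

theorem lg_21_1 : Real.log (21) ≤ (15597/5000) := by
  have h := log_ub_nonneg (X := 21) (by norm_num) 8 36 (by norm_num) (by norm_num)
  norm_num at h ⊢
  try linarith

theorem lg_61_2 : Real.log ((61/2)) ≤ (1733/500) := by
  have h := log_ub_nonneg (X := (61/2)) (by norm_num) 8 40 (by norm_num) (by norm_num)
  norm_num at h ⊢
  try linarith

theorem lg_42_1 : Real.log (42) ≤ (19063/5000) := by
  have h := log_ub_nonneg (X := 42) (by norm_num) 8 44 (by norm_num) (by norm_num)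
  norm_num at h ⊢
  try linarith

theorem lg_44_1 : Real.log (44) ≤ (19063/5000) := by
  have h := log_ub_nonneg (X := 44) (by norm_num) 8 44 (by norm_num) (by norm_num)
  norm_num at h ⊢
  try linarith

theorem lg_857_1 : Real.log (857) ≤ (67587/10000) := by
  have h := log_ub_nonneg (X := 857) (by norm_num) 8 78 (by norm_num) (by norm_num)
  norm_num at h ⊢
  try linarith

theorem aux_0 {r : ℝ} (ha : 0 ≤ r) (hb : r ≤ (7/20)) (h0 : r ≠ 0) (h1 : r - 1 ≠ 0) (h2 : r - 2 ≠ 0)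
    (h3 : r ^ 2 - 3 * r + 1 ≠ 0) :
    (3/50) * Real.log r + (37/200) * Real.log (r - 1) + (2/25) * Real.log (r - 2)
      + (1/16) * Real.log (r ^ 2 - 3 * r + 1) ≤ r * (r - 2) / (3 * (1 + r)) := by
  have e0 := log_sq_le h0 (by norm_num : (0:ℝ) < (3/50)) lg_3_50
  have e1 := log_sq_le h1 (by norm_num : (0:ℝ) < (7/10)) lg_7_10
  have e2 := log_sq_le h2 (by norm_num : (0:ℝ) < 3) lg_3_1
  have e3 := log_sq_le h3 (by norm_num : (0:ℝ) < (3/10)) lg_3_10
  have hr : 0 ≤ r := le_trans (by norm_num) ha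
  have hp : (0 : ℝ) < 3 * (1 + r) := by positivity
  have hB := bern5 (u := r - 0) (w := (7/20) - r) (by linarith) (by linarith)
    (12732387/2352980) (3958525409/47059600) (2897664059/11764900) (6111572627/23529800) (1111318059/11764900) (5887464/2941225) (by norm_num) (by norm_num) (by norm_num) (by norm_num) (by norm_num) (by norm_num)
  have hU : (3/50) * ((r ^ 2 / (3/50) - 1 + (-6931/2500)) / 2) + (37/200) * (((r - 1) ^ 2 / (7/10) - 1 + (-6931/20000)) / 2)
      + (2/25) * (((r - 2) ^ 2 / 3 - 1 + (22529/20000)) / 2) + (1/16) * (((r ^ 2 - 3 * r + 1) ^ 2 / (3/10) - 1 + (-90103/80000)) / 2)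
      ≤ r * (r - 2) / (3 * (1 + r)) := by
    rw [le_div_iff₀ hp]
    nlinarith [hB]
  linarith

theorem aux_1 {r : ℝ} (ha : (7/20) ≤ r) (hb : r ≤ (4/5)) (h0 : r ≠ 0) (h1 : r - 1 ≠ 0) (h2 : r - 2 ≠ 0)
    (h3 : r ^ 2 - 3 * r + 1 ≠ 0) :
    (3/50) * Real.log r + (37/200) * Real.log (r - 1) + (2/25) * Real.log (r - 2)
      + (1/16) * Real.log (r ^ 2 - 3 * r + 1) ≤ r * (r - 2) / (3 * (1 + r)) := by
  have e0 := log_sq_le h0 (by norm_num : (0:ℝ) < (3/10)) lg_3_10
  have e1 := log_sq_le h1 (by norm_num : (0:ℝ) < (13/50)) lg_13_50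
  have e2 := log_sq_le h2 (by norm_num : (0:ℝ) < 2) lg_2_1
  have e3 := log_sq_le h3 (by norm_num : (0:ℝ) < (6/25)) lg_6_25
  have hr : 0 ≤ r := le_trans (by norm_num) ha
  have hp : (0 : ℝ) < 3 * (1 + r) := by positivity
  have hB := bern5 (u := r - (7/20)) (w := (4/5) - r) (by linarith) (by linarith)
    (4215499/6298560) (50186627/1574640) (122431444/1279395) (248184407/2558790) (346597207/10235160) (2487533/2558790) (by norm_num) (by norm_num) (by norm_num) (by norm_num) (by norm_num) (by norm_num)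
  have hU : (3/50) * ((r ^ 2 / (3/10) - 1 + (-90103/80000)) / 2) + (37/200) * (((r - 1) ^ 2 / (13/50) - 1 + (-20793/16000)) / 2)
      + (2/25) * (((r - 2) ^ 2 / 2 - 1 + (1733/2500)) / 2) + (1/16) * (((r ^ 2 - 3 * r + 1) ^ 2 / (6/25) - 1 + (-6931/5000)) / 2)
      ≤ r * (r - 2) / (3 * (1 + r)) := by
    rw [le_div_iff₀ hp]
    nlinarith [hB]
  linarith

theorem aux_2 {r : ℝ} (ha : (4/5) ≤ r) (hb : r ≤ (8/5)) (h0 : r ≠ 0) (h1 : r - 1 ≠ 0) (h2 : r - 2 ≠ 0)
    (h3 : r ^ 2 - 3 * r + 1 ≠ 0) :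
    (3/50) * Real.log r + (37/200) * Real.log (r - 1) + (2/25) * Real.log (r - 2)
      + (1/16) * Real.log (r ^ 2 - 3 * r + 1) ≤ r * (r - 2) / (3 * (1 + r)) := by
  have e0 := log_sq_le h0 (by norm_num : (0:ℝ) < 2) lg_2_1
  have e1 := log_sq_le h1 (by norm_num : (0:ℝ) < (13/50)) lg_13_50
  have e2 := log_sq_le h2 (by norm_num : (0:ℝ) < (7/10)) lg_7_10
  have e3 := log_sq_le h3 (by norm_num : (0:ℝ) < 1) lg_1_1
  have hr : 0 ≤ r := le_trans (by norm_num) ha
  have hp : (0 : ℝ) < 3 * (1 + r) := by positivity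
  have hB := bern5 (u := r - (4/5)) (w := (8/5) - r) (by linarith) (by linarith)
    (399509769/4771020800) (15613013809/4771020800) (25416677173/2385510400) (28231015737/2385510400) (21437610301/4771020800) (11395841/367001600) (by norm_num) (by norm_num) (by norm_num) (by norm_num) (by norm_num) (by norm_num)
  have hU : (3/50) * ((r ^ 2 / 2 - 1 + (1733/2500)) / 2) + (37/200) * (((r - 1) ^ 2 / (13/50) - 1 + (-20793/16000)) / 2)
      + (2/25) * (((r - 2) ^ 2 / (7/10) - 1 + (-6931/20000)) / 2) + (1/16) * (((r ^ 2 - 3 * r + 1) ^ 2 / 1 - 1 + 0) / 2)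
      ≤ r * (r - 2) / (3 * (1 + r)) := by
    rw [le_div_iff₀ hp]
    nlinarith [hB]
  linarith

theorem aux_3 {r : ℝ} (ha : (8/5) ≤ r) (hb : r ≤ (51/20)) (h0 : r ≠ 0) (h1 : r - 1 ≠ 0) (h2 : r - 2 ≠ 0)
    (h3 : r ^ 2 - 3 * r + 1 ≠ 0) :
    (3/50) * Real.log r + (37/200) * Real.log (r - 1) + (2/25) * Real.log (r - 2)
      + (1/16) * Real.log (r ^ 2 - 3 * r + 1) ≤ r * (r - 2) / (3 * (1 + r)) := by
  have e0 := log_sq_le h0 (by norm_num : (0:ℝ) < 4) lg_4_1
  have e1 := log_sq_le h1 (by norm_num : (0:ℝ) < 1) lg_1_1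
  have e2 := log_sq_le h2 (by norm_num : (0:ℝ) < (4/25)) lg_4_25
  have e3 := log_sq_le h3 (by norm_num : (0:ℝ) < (11/10)) lg_11_10
  have hr : 0 ≤ r := le_trans (by norm_num) ha
  have hp : (0 : ℝ) < 3 * (1 + r) := by positivity
  have hB := bern5 (u := r - (8/5)) (w := (51/20) - r) (by linarith) (by linarith)
    (8818694/680927225) (3544072601/1361854450) (6243843762/680927225) (7485310298/680927225) (12399508543/2723708900) (594550767/10894835600) (by norm_num) (by norm_num) (by norm_num) (by norm_num) (by norm_num) (by norm_num)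
  have hU : (3/50) * ((r ^ 2 / 4 - 1 + (1733/1250)) / 2) + (37/200) * (((r - 1) ^ 2 / 1 - 1 + 0) / 2)
      + (2/25) * (((r - 2) ^ 2 / (4/25) - 1 + (-145551/80000)) / 2) + (1/16) * (((r ^ 2 - 3 * r + 1) ^ 2 / (11/10) - 1 + (1733/10000)) / 2)
      ≤ r * (r - 2) / (3 * (1 + r)) := by
    rw [le_div_iff₀ hp]
    nlinarith [hB]
  linarith

theorem aux_4 {r : ℝ} (ha : (51/20) ≤ r) (hb : r ≤ (7/2)) (h0 : r ≠ 0) (h1 : r - 1 ≠ 0) (h2 : r - 2 ≠ 0)
    (h3 : r ^ 2 - 3 * r + 1 ≠ 0) :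
    (3/50) * Real.log r + (37/200) * Real.log (r - 1) + (2/25) * Real.log (r - 2)
      + (1/16) * Real.log (r ^ 2 - 3 * r + 1) ≤ r * (r - 2) / (3 * (1 + r)) := by
  have e0 := log_sq_le h0 (by norm_num : (0:ℝ) < 8) lg_8_1
  have e1 := log_sq_le h1 (by norm_num : (0:ℝ) < 4) lg_4_1
  have e2 := log_sq_le h2 (by norm_num : (0:ℝ) < (9/10)) lg_9_10
  have e3 := log_sq_le h3 (by norm_num : (0:ℝ) < 4) lg_4_1
  have hr : 0 ≤ r := le_trans (by norm_num) ha
  have hp : (0 : ℝ) < 3 * (1 + r) := by positivity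
  have hB := bern5 (u := r - (51/20)) (w := (7/2) - r) (by linarith) (by linarith)
    (456084689/23770550400) (19713438083/11885275200) (17387944903/2971318800) (3498553967/495219800) (1446513323/495219800) (2245197/49521980) (by norm_num) (by norm_num) (by norm_num) (by norm_num) (by norm_num) (by norm_num)
  have hU : (3/50) * ((r ^ 2 / 8 - 1 + (5199/2500)) / 2) + (37/200) * (((r - 1) ^ 2 / 4 - 1 + (1733/1250)) / 2)
      + (2/25) * (((r - 2) ^ 2 / (9/10) - 1 + (-6931/80000)) / 2) + (1/16) * (((r ^ 2 - 3 * r + 1) ^ 2 / 4 - 1 + (1733/1250)) / 2)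
      ≤ r * (r - 2) / (3 * (1 + r)) := by
    rw [le_div_iff₀ hp]
    nlinarith [hB]
  linarith

theorem aux_5 {r : ℝ} (ha : (7/2) ≤ r) (hb : r ≤ (101/20)) (h0 : r ≠ 0) (h1 : r - 1 ≠ 0) (h2 : r - 2 ≠ 0)
    (h3 : r ^ 2 - 3 * r + 1 ≠ 0) :
    (3/50) * Real.log r + (37/200) * Real.log (r - 1) + (2/25) * Real.log (r - 2)
      + (1/16) * Real.log (r ^ 2 - 3 * r + 1) ≤ r * (r - 2) / (3 * (1 + r)) := by
  have e0 := log_sq_le h0 (by norm_num : (0:ℝ) < 16) lg_16_1
  have e1 := log_sq_le h1 (by norm_num : (0:ℝ) < (19/2)) lg_19_2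
  have e2 := log_sq_le h2 (by norm_num : (0:ℝ) < (9/2)) lg_9_2
  have e3 := log_sq_le h3 (by norm_num : (0:ℝ) < 44) lg_44_1
  have hr : 0 ≤ r := le_trans (by norm_num) ha
  have hp : (0 : ℝ) < 3 * (1 + r) := by positivity
  have hB := bern5 (u := r - (7/2)) (w := (101/20) - r) (by linarith) (by linarith)
    (5495781/10879077380) (46056125629/108790773800) (2086236451701/1196698511800) (18800345035859/7180191070800) (48262953585049/28720764283200) (1986499121447/5221957142400) (by norm_num) (by norm_num) (by norm_num) (by norm_num) (by norm_num) (by norm_num)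
  have hU : (3/50) * ((r ^ 2 / 16 - 1 + (1733/625)) / 2) + (37/200) * (((r - 1) ^ 2 / (19/2) - 1 + (22529/10000)) / 2)
      + (2/25) * (((r - 2) ^ 2 / (9/2) - 1 + (15597/10000)) / 2) + (1/16) * (((r ^ 2 - 3 * r + 1) ^ 2 / 44 - 1 + (19063/5000)) / 2)
      ≤ r * (r - 2) / (3 * (1 + r)) := by
    rw [le_div_iff₀ hp]
    nlinarith [hB]
  linarith

theorem aux_6 {r : ℝ} (ha : (101/20) ≤ r) (hb : r ≤ 9) (h0 : r ≠ 0) (h1 : r - 1 ≠ 0) (h2 : r - 2 ≠ 0)
    (h3 : r ^ 2 - 3 * r + 1 ≠ 0) :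
    (3/50) * Real.log r + (37/200) * Real.log (r - 1) + (2/25) * Real.log (r - 2)
      + (1/16) * Real.log (r ^ 2 - 3 * r + 1) ≤ r * (r - 2) / (3 * (1 + r)) := by
  have e0 := log_sq_le h0 (by norm_num : (0:ℝ) < 42) lg_42_1
  have e1 := log_sq_le h1 (by norm_num : (0:ℝ) < (61/2)) lg_61_2
  have e2 := log_sq_le h2 (by norm_num : (0:ℝ) < 21) lg_21_1
  have e3 := log_sq_le h3 (by norm_num : (0:ℝ) < 857) lg_857_1
  have hr : 0 ≤ r := le_trans (by norm_num) ha
  have hp : (0 : ℝ) < 3 * (1 + r) := by positivity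
  have hB := bern5 (u := r - (101/20)) (w := 9 - r) (by linarith) (by linarith)
    (3077954349515511/900811953274928800) (1082567946816642/28150373539841525) (7377387654063251/56300747079683050) (781508047096606/4021481934263075) (7417170983116621/56300747079683050) (37490466206804/1126014941593661) (by norm_num) (by norm_num) (by norm_num) (by norm_num) (by norm_num) (by norm_num)
  have hU : (3/50) * ((r ^ 2 / 42 - 1 + (19063/5000)) / 2) + (37/200) * (((r - 1) ^ 2 / (61/2) - 1 + (1733/500)) / 2)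
      + (2/25) * (((r - 2) ^ 2 / 21 - 1 + (15597/5000)) / 2) + (1/16) * (((r ^ 2 - 3 * r + 1) ^ 2 / 857 - 1 + (67587/10000)) / 2)
      ≤ r * (r - 2) / (3 * (1 + r)) := by
    rw [le_div_iff₀ hp]
    nlinarith [hB]
  linarith
theorem aux_tail {r : ℝ} (ha : 9 ≤ r) :
    (3/50) * Real.log r + (37/200) * Real.log (r - 1) + (2/25) * Real.log (r - 2)
      + (1/16) * Real.log (r ^ 2 - 3 * r + 1) ≤ r * (r - 2) / (3 * (1 + r)) := by
  have hr : 0 < r := by linarith
  have l0 : Real.log r ≤ r / 4 - 1 + 2 * 0.6932 := by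
    have h1 : Real.log (r / 4) ≤ r / 4 - 1 := Real.log_le_sub_one_of_pos (by positivity)
    rw [Real.log_div hr.ne' (by norm_num)] at h1
    have h2 : Real.log 4 = 2 * Real.log 2 := by
      rw [show (4 : ℝ) = 2 ^ 2 by norm_num, Real.log_pow]; norm_num
    have h3 := Real.log_two_lt_d9
    linarith
  have l1 : Real.log (r - 1) ≤ Real.log r := Real.log_le_log (by linarith) (by linarith)
  have l2 : Real.log (r - 2) ≤ Real.log r := Real.log_le_log (by linarith) (by linarith)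
  have l3 : Real.log (r ^ 2 - 3 * r + 1) ≤ 2 * Real.log r := by
    have : Real.log (r ^ 2 - 3 * r + 1) ≤ Real.log (r ^ 2) :=
      Real.log_le_log (by nlinarith) (by nlinarith)
    rw [Real.log_pow] at this
    exact_mod_cast this
  have h4 : (r / 3 - 1 : ℝ) ≤ r * (r - 2) / (3 * (1 + r)) := by
    rw [le_div_iff₀ (by positivity)]
    nlinarith
  linarith

/-- The auxiliary-function inequality. -/
theorem aux_ineq {r : ℝ} (hr : 0 < r) (h1 : r - 1 ≠ 0) (h2 : r - 2 ≠ 0)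
    (h3 : r ^ 2 - 3 * r + 1 ≠ 0) :
    (3/50) * Real.log r + (37/200) * Real.log (r - 1) + (2/25) * Real.log (r - 2)
      + (1/16) * Real.log (r ^ 2 - 3 * r + 1) ≤ r * (r - 2) / (3 * (1 + r)) := by
  rcases le_total r (7/20) with c0 | c0
  · exact aux_0 hr.le c0 hr.ne' h1 h2 h3
  rcases le_total r (4/5) with c1 | c1
  · exact aux_1 c0 c1 hr.ne' h1 h2 h3
  rcases le_total r (8/5) with c2 | c2
  · exact aux_2 c1 c2 hr.ne' h1 h2 h3
  rcases le_total r (51/20) with c3 | c3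
  · exact aux_3 c2 c3 hr.ne' h1 h2 h3
  rcases le_total r (7/2) with c4 | c4
  · exact aux_4 c3 c4 hr.ne' h1 h2 h3
  rcases le_total r (101/20) with c5 | c5
  · exact aux_5 c4 c5 hr.ne' h1 h2 h3
  rcases le_total r 9 with c6 | c6
  · exact aux_6 c5 c6 hr.ne' h1 h2 h3
  exact aux_tail c6

end Pool.Agent.H311.Dom
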