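import Pool.Agent.H311.Dom.Ineq

/-!
For a monic integer polynomial `∏ (X + r)`, `r ≥ 0` real, `r ≠ 1`, the sum of
`r(r-2)/(3(1+r))` is nonnegative.
-/

open Polynomial

namespace Pool.Agent.H311.Dom

noncomputable def L (r : ℝ) : ℝ := r * (r - 2) / (3 * (1 + r))

theorem sum_log {R : Multiset ℝ} {f : ℝ → ℝ} (h : ∀ r ∈ R, f r ≠ 0) :
    (R.map (fun r => Real.log (f r))).sum = Real.log ((R.map f).prod) := by
  induction R using Multiset.induction with
  | empty => simp
  | cons a s ih =>
    have h1 : f a ≠ 0 := h a (Multiset.mem_cons_self a s)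
    have h2 : ∀ r ∈ s, f r ≠ 0 := fun r hr => h r (Multiset.mem_cons_of_mem hr)
    have h3 : (s.map f).prod ≠ 0 := by
      intro h0
      rw [Multiset.prod_eq_zero_iff, Multiset.mem_map] at h0
      obtain ⟨r, hr, h0⟩ := h0
      exact h2 r hr h0
    rw [Multiset.map_cons, Multiset.sum_cons, Multiset.map_cons, Multiset.prod_cons,
      Real.log_mul h1 h3, ih h2]

theorem log_int_nonneg {x : ℝ} (z : ℤ) (h : x = z) : 0 ≤ Real.log x := by
  rcases eq_or_ne z 0 with hz | hz
  · simp [h, hz]
  · rw [h, ← Real.log_abs]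
    apply Real.log_nonneg
    have : 1 ≤ |z| := Int.one_le_abs hz
    exact_mod_cast this

/-- evaluation of `∏ (X + r)`. -/
theorem eval_prod (R : Multiset ℝ) (x : ℝ) :
    ((R.map (fun r => (X + C r : ℝ[X]))).prod).eval x = (R.map (fun r => x + r)).prod := by
  rw [Polynomial.eval_multiset_prod, Multiset.map_map]
  congr 1
  apply Multiset.map_congr rfl
  intro r _
  simp

theorem eval_int {p : ℤ[X]} {R : Multiset ℝ}
    (hp : p.map (Int.castRingHom ℝ) = (R.map (fun r => (X + C r : ℝ[X]))).prod) (z : ℤ) :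
    (R.map (fun r => (z : ℝ) + r)).prod = (p.eval z : ℤ) := by
  rw [← eval_prod, ← hp]
  simp

theorem quad_irr {θ : ℝ} (h : θ ^ 2 - 3 * θ + 1 = 0) {a b : ℤ} (hab : (b : ℝ) = a * θ) :
    a = 0 ∧ b = 0 := by
  have h1 : (b ^ 2 - 3 * a * b + a ^ 2 : ℤ) = 0 := by
    have : ((b : ℝ) ^ 2 - 3 * a * b + (a : ℝ) ^ 2) = 0 := by
      rw [hab]
      linear_combination (a : ℝ) ^ 2 * h
    exact_mod_cast this
  -- (2b-3a)^2 = 5 a^2
  have h2 : (2 * b - 3 * a) ^ 2 = 5 * a ^ 2 := by nlinarith
  have ha : a = 0 := by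
    by_contra ha
    have h3 : IsSquare (5 : ℚ) := by
      refine ⟨((2 * b - 3 * a : ℤ) : ℚ) / a, ?_⟩
      have h4 : ((2 * b - 3 * a : ℤ) : ℚ) ^ 2 = 5 * (a : ℚ) ^ 2 := by exact_mod_cast h2
      have ha' : (a : ℚ) ≠ 0 := by exact_mod_cast ha
      field_simp
      linarith
    have h5 : IsSquare (5 : ℕ) := by
      have := Rat.isSquare_natCast_iff (n := 5)
      exact this.mp (by exact_mod_cast h3)
    obtain ⟨k, hk⟩ := h5
    have : k < 3 := by nlinarith
    interval_cases k <;> omega
  subst ha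
  refine ⟨rfl, ?_⟩
  have : b ^ 2 = 0 := by nlinarith
  exact pow_eq_zero_iff (by norm_num) |>.mp this

noncomputable def m0 : ℤ[X] := X ^ 2 + C 3 * X + C 1

theorem m0_monic : m0.Monic := by
  unfold m0; monicity!

theorem m0_map : m0.map (Int.castRingHom ℝ) = X ^ 2 + C 3 * X + C 1 := by
  unfold m0
  rw [Polynomial.map_add, Polynomial.map_add, Polynomial.map_mul, Polynomial.map_pow,
    Polynomial.map_X, Polynomial.map_C, Polynomial.map_C]
  norm_num

theorem m0_natDegree : m0.natDegree = 2 := by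
  unfold m0; compute_degree!

theorem rem_form (p : ℤ[X]) : ∃ a b : ℤ, p %ₘ m0 = C a * X + C b := by
  have h1 : (p %ₘ m0).natDegree ≤ 1 := by
    have := Polynomial.natDegree_modByMonic_lt p m0_monic (by
      intro h
      have := m0_natDegree
      rw [h] at this
      simp at this)
    rw [m0_natDegree] at this
    omega
  obtain ⟨a, b, h⟩ := Polynomial.exists_eq_X_add_C_of_natDegree_le_one h1
  exact ⟨a, b, h⟩

/-- value at `-θ`. -/
theorem eval_theta {p : ℤ[X]} {a b : ℤ} (h : p %ₘ m0 = C a * X + C b) {θ : ℝ}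
    (hθ : θ ^ 2 - 3 * θ + 1 = 0) :
    (p.map (Int.castRingHom ℝ)).eval (-θ) = b - a * θ := by
  have h1 : p %ₘ m0 + m0 * (p /ₘ m0) = p := Polynomial.modByMonic_add_div p m0
  have h2 : (p.map (Int.castRingHom ℝ)) = (C (a : ℝ) * X + C (b : ℝ))
      + (X ^ 2 + C 3 * X + C 1) * ((p /ₘ m0).map (Int.castRingHom ℝ)) := by
    conv_lhs => rw [← h1, h]
    rw [Polynomial.map_add, Polynomial.map_mul]
    congr 1
    · simp
    · rw [m0_map]
  rw [h2]
  simp only [eval_add, eval_mul, eval_C, eval_X, eval_pow]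
  linear_combination ((p /ₘ m0).map (Int.castRingHom ℝ)).eval (-θ) * hθ

theorem L_zero : L 0 = 0 := by simp [L]
theorem L_two : L 2 = 0 := by simp [L]
theorem L_theta {θ : ℝ} (h : θ ^ 2 - 3 * θ + 1 = 0) (h0 : 0 ≤ θ) (h1 : 0 ≤ 3 - θ) :
    L θ + L (3 - θ) = 0 := by
  unfold L
  have e1 : (1 + θ : ℝ) ≠ 0 := by positivity
  have e2 : (1 + (3 - θ) : ℝ) ≠ 0 := by positivity
  field_simp
  ring_nf
  nlinarith [h]

theorem cancel_root {q : ℝ[X]} {R : Multiset ℝ} {r : ℝ} (hr : r ∈ R)
    (h : (X + C r) * q = (R.map (fun r => (X + C r : ℝ[X]))).prod) :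
    q = ((R.erase r).map (fun r => (X + C r : ℝ[X]))).prod := by
  have h1 : R = r ::ₘ R.erase r := (Multiset.cons_erase hr).symm
  rw [h1, Multiset.map_cons, Multiset.prod_cons] at h
  have h2 : (X + C r : ℝ[X]) ≠ 0 := Polynomial.X_add_C_ne_zero r
  exact mul_left_cancel₀ h2 h

theorem mem_of_root {R : Multiset ℝ} {x : ℝ}
    (h : ((R.map (fun r => (X + C r : ℝ[X]))).prod).eval (-x) = 0) : x ∈ R := by
  rw [eval_prod, Multiset.prod_eq_zero_iff, Multiset.mem_map] at h
  obtain ⟨r, hr, h⟩ := h
  have : r = x := by linarith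
  exact this ▸ hr

theorem root_of_mem {R : Multiset ℝ} {x : ℝ} (hx : x ∈ R) :
    ((R.map (fun r => (X + C r : ℝ[X]))).prod).eval (-x) = 0 := by
  rw [eval_prod, Multiset.prod_eq_zero_iff, Multiset.mem_map]
  exact ⟨x, hx, by ring⟩

theorem sum_L_erase {R : Multiset ℝ} {r : ℝ} (hr : r ∈ R) :
    (R.map L).sum = L r + ((R.erase r).map L).sum := by
  conv_lhs => rw [← Multiset.cons_erase hr]
  rw [Multiset.map_cons, Multiset.sum_cons]

theorem sum_L_nonneg (n : ℕ) : ∀ (p : ℤ[X]) (R : Multiset ℝ), Multiset.card R = n →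
    p.map (Int.castRingHom ℝ) = (R.map (fun r => (X + C r : ℝ[X]))).prod →
    (∀ r ∈ R, 0 ≤ r) → (1 : ℝ) ∉ R → 0 ≤ (R.map L).sum := by
  induction n using Nat.strong_induction_on with
  | _ n ih =>
    intro p R hn hp hR h1
    -- extraction of an integer root
    have ext : ∀ z : ℤ, (z : ℝ) ∈ R → L z = 0 → 0 ≤ (R.map L).sum := by
      intro z hz hL
      have e1 : (p.eval (-z) : ℤ) = 0 := by
        have := eval_int hp (-z)
        have h2 : (R.map (fun r => ((-z : ℤ) : ℝ) + r)).prod = 0 := by
          rw [Multiset.prod_eq_zero_iff, Multiset.mem_map]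
          exact ⟨z, hz, by push_cast; ring⟩
        rw [h2] at this
        exact_mod_cast this.symm
      obtain ⟨q, hq⟩ := Polynomial.dvd_iff_isRoot.mpr e1
      have e2 : (X + C (z : ℝ)) * q.map (Int.castRingHom ℝ)
          = (R.map (fun r => (X + C r : ℝ[X]))).prod := by
        rw [← hp, hq, Polynomial.map_mul]
        congr 1
        simp
      have e3 := cancel_root hz e2
      have e4 := ih (Multiset.card (R.erase (z : ℝ))) (by
        rw [← hn]; exact Multiset.card_erase_lt_of_mem hz) q (R.erase (z : ℝ)) rfl e3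
        (fun r hr => hR r (Multiset.mem_of_mem_erase hr))
        (fun h => h1 (Multiset.mem_of_mem_erase h))
      rw [sum_L_erase hz, hL, zero_add]
      exact e4
    by_cases c0 : (0 : ℝ) ∈ R
    · exact ext 0 (by simpa using c0) (by simpa using L_zero)
    by_cases c2 : (2 : ℝ) ∈ R
    · exact ext 2 (by simpa using c2) (by simpa using L_two)
    obtain ⟨a, b, hab⟩ := rem_form p
    by_cases ct : ∃ θ ∈ R, θ ^ 2 - 3 * θ + 1 = 0
    · obtain ⟨θ, hθR, hθ⟩ := ct
      have e1 := eval_theta hab hθ
      rw [hp, root_of_mem hθR] at e1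
      obtain ⟨ha, hb⟩ := quad_irr hθ (a := a) (b := b) (by linarith)
      have e2 : p = m0 * (p /ₘ m0) := by
        conv_lhs => rw [← Polynomial.modByMonic_add_div p m0, hab, ha, hb]
        simp
      set q := p /ₘ m0 with hq
      have e3 : p.map (Int.castRingHom ℝ) = (X + C θ) * ((X + C (3 - θ)) * q.map (Int.castRingHom ℝ)) := by
        conv_lhs => rw [e2, Polynomial.map_mul]
        rw [← mul_assoc]
        congr 1
        rw [m0_map]
        have : (X + C θ) * (X + C (3 - θ)) = (X ^ 2 + C 3 * X + C (θ * (3 - θ)) : ℝ[X]) := by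
          rw [C_mul, C_sub]; ring
        rw [this, show θ * (3 - θ) = 1 by linarith]
      have e4 := cancel_root hθR (e3.symm.trans hp)
      have hθ' : (3 - θ) ∈ R.erase θ := by
        apply mem_of_root
        rw [← e4, eval_mul]
        simp
      have e5 := cancel_root hθ' e4
      have n0 : 0 ≤ θ := hR θ hθR
      have n1 : 0 ≤ 3 - θ := hR _ (Multiset.mem_of_mem_erase hθ')
      have e6 := ih (Multiset.card ((R.erase θ).erase (3 - θ))) (by
        rw [← hn]
        exact lt_trans (Multiset.card_erase_lt_of_mem hθ') (Multiset.card_erase_lt_of_mem hθR))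
        q ((R.erase θ).erase (3 - θ)) rfl e5
        (fun r hr => hR r (Multiset.mem_of_mem_erase (Multiset.mem_of_mem_erase hr)))
        (fun h => h1 (Multiset.mem_of_mem_erase (Multiset.mem_of_mem_erase h)))
      rw [sum_L_erase hθR, sum_L_erase hθ']
      have := L_theta hθ n0 n1
      linarith
    · push Not at ct
      have f0 : ∀ r ∈ R, r ≠ 0 := fun r hr h => c0 (h ▸ hr)
      have f1 : ∀ r ∈ R, r - 1 ≠ 0 := fun r hr h => h1 (by
        have : r = 1 := by linarith
        exact this ▸ hr)
      have f2 : ∀ r ∈ R, r - 2 ≠ 0 := fun r hr h => c2 (by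
        have : r = 2 := by linarith
        exact this ▸ hr)
      have f3 : ∀ r ∈ R, r ^ 2 - 3 * r + 1 ≠ 0 := ct
      have key : (R.map (fun r => (3/50) * Real.log r + (37/200) * Real.log (r - 1)
          + (2/25) * Real.log (r - 2) + (1/16) * Real.log (r ^ 2 - 3 * r + 1))).sum
          ≤ (R.map L).sum := by
        apply Multiset.sum_map_le_sum_map
        intro r hr
        exact aux_ineq (lt_of_le_of_ne (hR r hr) (f0 r hr).symm) (f1 r hr) (f2 r hr) (f3 r hr)
      refine le_trans ?_ key
      rw [Multiset.sum_map_add, Multiset.sum_map_add, Multiset.sum_map_add,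
        Multiset.sum_map_mul_left, Multiset.sum_map_mul_left, Multiset.sum_map_mul_left,
        Multiset.sum_map_mul_left]
      have g0 : 0 ≤ (R.map (fun r => Real.log r)).sum := by
        rw [sum_log (f := fun r => r) f0]
        apply log_int_nonneg (p.eval 0)
        have := eval_int hp 0
        simpa using this
      have g1 : 0 ≤ (R.map (fun r => Real.log (r - 1))).sum := by
        rw [sum_log (f := fun r => r - 1) f1]
        apply log_int_nonneg (p.eval (-1))
        have := eval_int hp (-1)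
        rw [← this]
        congr 1
        apply Multiset.map_congr rfl
        intro r _
        push_cast; ring
      have g2 : 0 ≤ (R.map (fun r => Real.log (r - 2))).sum := by
        rw [sum_log (f := fun r => r - 2) f2]
        apply log_int_nonneg (p.eval (-2))
        have := eval_int hp (-2)
        rw [← this]
        congr 1
        apply Multiset.map_congr rfl
        intro r _
        push_cast; ring
      have g3 : 0 ≤ (R.map (fun r => Real.log (r ^ 2 - 3 * r + 1))).sum := by
        rw [sum_log (f := fun r => r ^ 2 - 3 * r + 1) f3]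
        apply log_int_nonneg (b ^ 2 - 3 * a * b + a ^ 2)
        obtain ⟨t1, q1⟩ : ∃ t1 : ℝ, t1 ^ 2 - 3 * t1 + 1 = 0 := by
          refine ⟨(3 + Real.sqrt 5) / 2, ?_⟩
          have hs : Real.sqrt 5 ^ 2 = 5 := Real.sq_sqrt (by norm_num)
          nlinarith
        have q2 : (3 - t1) ^ 2 - 3 * (3 - t1) + 1 = 0 := by nlinarith
        have v1 := eval_theta hab q1
        have v2 := eval_theta hab q2
        rw [hp, eval_prod] at v1 v2
        have : (R.map (fun r => r ^ 2 - 3 * r + 1)).prod
            = (R.map (fun r => -t1 + r)).prod * (R.map (fun r => -(3 - t1) + r)).prod := by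
          rw [← Multiset.prod_map_mul]
          congr 1
          apply Multiset.map_congr rfl
          intro r _
          linear_combination q1
        rw [this, v1, v2]
        push_cast
        linear_combination (-(a : ℝ) ^ 2) * q1
      positivity

end Pool.Agent.H311.Dom
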